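import Pool.Agent.W598.IA.Stm

set_option autoImplicit false

namespace Pool.Agent.W800.IA.IDX

open Pool.Agent.W598.IA

def A : S2 := ⟨!![1, 2; 0, 1], by simp [Matrix.det_fin_two]⟩
def B : S2 := ⟨!![1, 0; 2, 1], by simp [Matrix.det_fin_two]⟩
def S : S2 := ⟨!![0, -1; 1, 0], by simp [Matrix.det_fin_two]⟩
def T : S2 := ⟨!![1, 1; 0, 1], by simp [Matrix.det_fin_two]⟩
def S' : S2 := ⟨!![0, 1; -1, 0], by simp [Matrix.det_fin_two]⟩
def T' : S2 := ⟨!![1, -1; 0, 1], by simp [Matrix.det_fin_two]⟩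
def A' : S2 := ⟨!![1, -2; 0, 1], by simp [Matrix.det_fin_two]⟩
def B' : S2 := ⟨!![1, 0; -2, 1], by simp [Matrix.det_fin_two]⟩
def N : S2 := ⟨!![-1, 0; 0, -1], by simp [Matrix.det_fin_two]⟩

def wl : List S2 := [1, A, A', B, B', A * B', B * A']

def six : List S2 := [1, T, S, S * T, T * S, T * S * T]

def reps : List S2 := six ++ six.map (fun x => N * x)

theorem table : ∀ r ∈ reps, ∀ s ∈ [S, S', T, T'], ∃ u ∈ wl, ∃ q ∈ reps, r * s = u * q := by
  decide +kernel

theorem A'_eq : A' = A⁻¹ := by decide +kernel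
theorem B'_eq : B' = B⁻¹ := by decide +kernel
theorem S'_eq : S' = S⁻¹ := by decide +kernel
theorem T'_eq : T' = T⁻¹ := by decide +kernel

theorem step (H : Subgroup S2) (hA : A ∈ H) (hB : B ∈ H) (x : S2)
    (hx : ∃ r ∈ reps, x * r⁻¹ ∈ H) (s : S2) (hs : s ∈ [S, S', T, T']) :
    ∃ r ∈ reps, x * s * r⁻¹ ∈ H := by
  obtain ⟨r, hr, h⟩ := hx
  obtain ⟨u, hu, q, hq, h1⟩ := table r hr s hs
  have hu' : u ∈ H := by
    have hA' : A' ∈ H := by rw [A'_eq]; exact H.inv_mem hA
    have hB' : B' ∈ H := by rw [B'_eq]; exact H.inv_mem hB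
    simp only [wl, List.mem_cons, List.not_mem_nil, or_false] at hu
    rcases hu with rfl | rfl | rfl | rfl | rfl | rfl | rfl
    · exact H.one_mem
    · exact hA
    · exact hA'
    · exact hB
    · exact hB'
    · exact H.mul_mem hA hB'
    · exact H.mul_mem hB hA'
  refine ⟨q, hq, ?_⟩
  have h2 : x * s * q⁻¹ = (x * r⁻¹) * u := by
    rw [mul_assoc x s, mul_assoc x, mul_right_inj]
    rw [mul_inv_eq_iff_eq_mul, mul_assoc, ← h1, inv_mul_cancel_left]
  rw [h2]
  exact H.mul_mem h hu'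

theorem cover (H : Subgroup S2) (hA : A ∈ H) (hB : B ∈ H) (x : S2) : ∃ r ∈ reps, x * r⁻¹ ∈ H := by
  have hx : x ∈ Subgroup.closure ({ModularGroup.S, ModularGroup.T} : Set S2) := by
    rw [SpecialLinearGroup.SL2Z_generators]
    exact Subgroup.mem_top x
  have hS : (ModularGroup.S : S2) = S := by decide +kernel
  have hT : (ModularGroup.T : S2) = T := by decide +kernel
  rw [hS, hT] at hx
  induction hx using Subgroup.closure_induction_right with
  | one => exact ⟨1, by simp [reps, six], by simp⟩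
  | mul_right x hx y hy ih =>
    refine step H hA hB x ih y ?_
    rcases hy with rfl | rfl <;> simp
  | mul_inv_cancel x hx y hy ih =>
    refine step H hA hB x ih y⁻¹ ?_
    rcases hy with rfl | rfl
    · rw [← S'_eq]; simp
    · rw [← T'_eq]; simp

theorem main : S_IDX := by
  intro H hA hB
  have hc := cover H hA hB
  rw [Subgroup.finiteIndex_iff_finite_quotient]
  have hf : Finite {r : S2 // r ∈ reps} := (List.finite_toSet reps).to_subtype
  refine Finite.of_surjective (fun r : {r : S2 // r ∈ reps} => (QuotientGroup.mk (r.1)⁻¹ : S2 ⧸ H)) ?_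
  intro g
  obtain ⟨g, rfl⟩ := QuotientGroup.mk_surjective g
  obtain ⟨r, hr, h⟩ := hc g⁻¹
  refine ⟨⟨r, hr⟩, ?_⟩
  rw [QuotientGroup.eq]
  have h2 := H.inv_mem h
  rw [mul_inv_rev, inv_inv, inv_inv] at h2
  rwa [inv_inv]

end Pool.Agent.W800.IA.IDX
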